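import Pool.Agent.H70.AV.Flip

/-!
# Measures on the two-sphere invariant under the sign changes, for scales from `arccos (2/3)` to
`π / 3`
-/

namespace Pool.Agent.H53.SM

open Pool.Agent.H73.Avr Pool.Agent.H71.AV Pool.Agent.H70.AV

/-- the polynomial of the squares of the coordinates -/
noncomputable def pp (q a b c z : ℝ) : ℝ :=
  z * (z - q) * (z - 9 / 10) + 8000 * (a * b * c) * (z - 13 / 40)

/-- the polynomial on the two-sphere -/
noncomputable def ph (q : ℝ) (k : Fin 3) (x : Sph 2) : ℝ :=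
  pp q (x.1 0 ^ 2) (x.1 1 ^ 2) (x.1 2 ^ 2) (x.1 k ^ 2)

private theorem ri_pos_of {n : ℕ} {r : ℝ} (μ : AVR (geo n) r) {f : Sph n → ℝ}
    (h : ∀ x ∈ μ.w.support, 0 ≤ f x) {x : Sph n} (hx : x ∈ μ.w.support) (hf : 0 < f x) :
    0 < ri f μ.w := by
  show 0 < ∑ x ∈ μ.w.support, μ.w x * f x
  refine Finset.sum_pos' (fun y hy => mul_nonneg (μ.nonneg y) (h y hy)) ⟨x, hx, ?_⟩
  refine mul_pos ?_ hf
  exact lt_of_le_of_ne (μ.nonneg x) (Ne.symm (Finsupp.mem_support_iff.1 hx))

private theorem ri_neg_of {n : ℕ} {r : ℝ} (μ : AVR (geo n) r) {f : Sph n → ℝ}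
    (h : ∀ x ∈ μ.w.support, f x ≤ 0) {x : Sph n} (hx : x ∈ μ.w.support) (hf : f x < 0) :
    ri f μ.w < 0 := by
  have h1 : 0 < ri (fun x => -f x) μ.w :=
    ri_pos_of μ (fun y hy => neg_nonneg.2 (h y hy)) hx (neg_pos.2 hf)
  have h2 : ri (fun x => -f x) μ.w = -ri f μ.w := by
    show ∑ x ∈ μ.w.support, μ.w x * -f x = -∑ x ∈ μ.w.support, μ.w x * f x
    rw [← Finset.sum_neg_distrib]
    exact Finset.sum_congr rfl fun y _ => by ring
  rw [h2] at h1
  linarith

/-- every nonzero coordinate of a support point is large -/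
private theorem coord_ge {r : ℝ} (hr : 0 ≤ r) (μ : AVR (geo 2) r)
    (hinv : ∀ j x, μ.w (flip j x) = μ.w x) {x : Sph 2} (hx : x ∈ μ.w.support) (j : Fin 3)
    (h0 : x.1 j ≠ 0) : (1 - Real.cos r) / 2 ≤ x.1 j ^ 2 := by
  have hj : flip j x ∈ μ.w.support := by
    rw [Finsupp.mem_support_iff] at hx ⊢
    rw [hinv]
    exact hx
  have h1 : r ≤ InnerProductGeometry.angle x.1 (flip j x).1 :=
    μ.spread x hx (flip j x) hj (Ne.symm (flip_ne h0))
  have h2 := Real.cos_le_cos_of_nonneg_of_le_pi hr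
    (InnerProductGeometry.angle_le_pi x.1 (flip j x).1) h1
  have h3 := InnerProductGeometry.cos_angle_mul_norm_mul_norm x.1 (flip j x).1
  rw [mem_sphere_zero_iff_norm.1 x.2, mem_sphere_zero_iff_norm.1 (flip j x).2, one_mul, mul_one,
    inner_flip] at h3
  linarith

/-- two support points in different orbits -/
private theorem abs_inner_le {r : ℝ} (hr : 0 ≤ r) (μ : AVR (geo 2) r)
    (hinv : ∀ j x, μ.w (flip j x) = μ.w x) {x y : Sph 2} (hx : x ∈ μ.w.support)
    (hy : y ∈ μ.w.support) {i : Fin 3} (hi : x.1 i ^ 2 ≠ y.1 i ^ 2) :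
    |x.1 0| * |y.1 0| + |x.1 1| * |y.1 1| + |x.1 2| * |y.1 2| ≤ Real.cos r := by
  obtain ⟨z, hz, h1, h2⟩ := exists_aligned μ hinv x hy Finset.univ
  have hne : x ≠ z := by
    intro h
    apply hi
    rw [h]
    exact h1 i
  have h3 : r ≤ InnerProductGeometry.angle x.1 z.1 := μ.spread x hx z hz hne
  have h4 := Real.cos_le_cos_of_nonneg_of_le_pi hr (InnerProductGeometry.angle_le_pi x.1 z.1) h3
  have h5 := InnerProductGeometry.cos_angle_mul_norm_mul_norm x.1 z.1
  rw [mem_sphere_zero_iff_norm.1 x.2, mem_sphere_zero_iff_norm.1 z.2, one_mul, mul_one,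
    inner_eq_sum, Fin.sum_univ_three] at h5
  have h6 : ∀ i : Fin 3, |x.1 i| * |y.1 i| = x.1 i * z.1 i := by
    intro i
    have h7 : |y.1 i| = |z.1 i| := (sq_eq_sq_iff_abs_eq_abs _ _).1 (h1 i).symm
    rw [h7, ← abs_mul, abs_of_nonneg (h2 i (Finset.mem_univ i))]
  rw [h6, h6, h6]
  linarith

private theorem sum3 (x : Sph 2) : |x.1 0| ^ 2 + |x.1 1| ^ 2 + |x.1 2| ^ 2 = 1 := by
  have := sum_sq_eq_one x
  rw [Fin.sum_univ_three] at this
  rw [sq_abs, sq_abs, sq_abs]
  exact this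

/-- the estimate for a point with one zero coordinate and a point without -/
private theorem est_S {q x y a b : ℝ} (hq : 1 / 6 ≤ q) (hx : 0 ≤ x) (hy : 0 ≤ y)
    (hxy : x ^ 2 + y ^ 2 = 1) (hx2 : 1 / 2 ≤ x ^ 2) (hy2 : q ≤ y ^ 2) (ha : 0 ≤ a)
    (ha2 : 13 / 40 < a ^ 2) (hb : 0 ≤ b) (hb2 : q ≤ b ^ 2) : 1 - 2 * q < a * x + b * y := by
  have h1 : 57 / 100 ≤ a := by
    by_contra h
    push Not at h
    nlinarith
  have hw : y ^ 2 ≤ 1 / 2 := by linarith
  have h2 : 9128 / 10000 - 6173 / 10000 * (y ^ 2 - 1 / 6) ≤ x := by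
    apply le_of_sq_le_sq _ hx
    have e : x ^ 2 = 1 - y ^ 2 := by linarith
    rw [e]
    nlinarith [mul_nonneg (sub_nonneg.2 (hq.trans hy2)) (sub_nonneg.2 hw)]
  have h3 : q + 36 / 100 * (y ^ 2 - q) ≤ b * y := by
    apply le_of_sq_le_sq _ (mul_nonneg hb hy)
    have h4 : q * y ^ 2 ≤ (b * y) ^ 2 := by
      rw [mul_pow]
      exact mul_le_mul_of_nonneg_right hb2 (sq_nonneg _)
    refine le_trans ?_ h4
    have h5 : 0 ≤ (y ^ 2 - q) * (7 / 25 * q - 1296 / 10000 * (y ^ 2 - q)) :=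
      mul_nonneg (by linarith) (by linarith)
    nlinarith
  have h6 : 57 / 100 * (9128 / 10000 - 6173 / 10000 * (y ^ 2 - 1 / 6)) ≤ a * x := by
    have h7 : 57 / 100 * x ≤ a * x := mul_le_mul_of_nonneg_right h1 hx
    linarith
  nlinarith

/-- the estimate for two points without zero coordinates -/
private theorem est_T {q : ℝ} (hq : 1 / 6 ≤ q) (hq4 : q ≤ 1 / 4) {x y : Fin 3 → ℝ}
    (hx : ∀ i, 0 ≤ x i) (hy : ∀ i, 0 ≤ y i) (hx1 : x 0 ^ 2 + x 1 ^ 2 + x 2 ^ 2 = 1)
    (hy1 : y 0 ^ 2 + y 1 ^ 2 + y 2 ^ 2 = 1) (hxq : ∀ i, q ≤ x i ^ 2) (hyq : ∀ i, q ≤ y i ^ 2) :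
    1 - 2 * q < x 0 * y 0 + x 1 * y 1 + x 2 * y 2 := by
  have hq0 : 0 ≤ q := by linarith
  have hd0 : 0 ≤ 1 - 2 * q := by linarith
  obtain ⟨s, hs0, hs⟩ : ∃ s : ℝ, 0 ≤ s ∧ s ^ 2 = q := ⟨√q, Real.sqrt_nonneg _, Real.sq_sqrt hq0⟩
  obtain ⟨d, hd, hd2⟩ : ∃ d : ℝ, 0 ≤ d ∧ d ^ 2 = 1 - 2 * q :=
    ⟨√(1 - 2 * q), Real.sqrt_nonneg _, Real.sq_sqrt hd0⟩
  have hge : ∀ z : ℝ, 0 ≤ z → q ≤ z ^ 2 → s ≤ z := by
    intro z hz h
    apply le_of_sq_le_sq _ hz
    rw [hs]
    exact h
  have key : ∀ z : Fin 3 → ℝ, (∀ i, 0 ≤ z i) → z 0 ^ 2 + z 1 ^ 2 + z 2 ^ 2 = 1 →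
      (∀ i, q ≤ z i ^ 2) → 2 * s + d ≤ z 0 + z 1 + z 2 := by
    intro z hz h1 h2
    have u0 := hge _ (hz 0) (h2 0)
    have u1 := hge _ (hz 1) (h2 1)
    have u2 := hge _ (hz 2) (h2 2)
    have p01 : 0 ≤ (z 0 - s) * (z 1 - s) := mul_nonneg (by linarith) (by linarith)
    have p02 : 0 ≤ (z 0 - s) * (z 2 - s) := mul_nonneg (by linarith) (by linarith)
    have p12 : 0 ≤ (z 1 - s) * (z 2 - s) := mul_nonneg (by linarith) (by linarith)
    have h3 : d ≤ z 0 + z 1 + z 2 - 2 * s := by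
      apply le_of_sq_le_sq _ (by linarith)
      rw [hd2, ← hs]
      nlinarith
    linarith
  have kx := key x hx hx1 hxq
  have ky := key y hy hy1 hyq
  have r0 : 0 ≤ (x 0 - s) * (y 0 - s) :=
    mul_nonneg (sub_nonneg.2 (hge _ (hx 0) (hxq 0))) (sub_nonneg.2 (hge _ (hy 0) (hyq 0)))
  have r1 : 0 ≤ (x 1 - s) * (y 1 - s) :=
    mul_nonneg (sub_nonneg.2 (hge _ (hx 1) (hxq 1))) (sub_nonneg.2 (hge _ (hy 1) (hyq 1)))
  have r2 : 0 ≤ (x 2 - s) * (y 2 - s) :=
    mul_nonneg (sub_nonneg.2 (hge _ (hx 2) (hxq 2))) (sub_nonneg.2 (hge _ (hy 2) (hyq 2)))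
  have h4 : 1 - 3 * q < 2 * (s * d) := by
    have h5 : (1 - 3 * q) ^ 2 < (2 * (s * d)) ^ 2 := by
      rw [mul_pow, mul_pow, hs, hd2]
      nlinarith
    exact lt_of_pow_lt_pow_left₀ 2 (mul_nonneg (by norm_num) (mul_nonneg hs0 hd)) h5
  have h6 : s * (2 * s + d) ≤ s * (x 0 + x 1 + x 2) := mul_le_mul_of_nonneg_left kx hs0
  have h7 : s * (2 * s + d) ≤ s * (y 0 + y 1 + y 2) := mul_le_mul_of_nonneg_left ky hs0
  nlinarith

private theorem perm_add (g : Fin 3 → ℝ) {i j l : Fin 3} (hij : i ≠ j) (hil : i ≠ l)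
    (hjl : j ≠ l) : g 0 + g 1 + g 2 = g i + g j + g l := by
  fin_cases i <;> fin_cases j <;> fin_cases l
  all_goals first
    | exact absurd rfl hij
    | exact absurd rfl hil
    | exact absurd rfl hjl
    | (change g 0 + g 1 + g 2 = g 0 + g 1 + g 2; ring)
    | (change g 0 + g 1 + g 2 = g 0 + g 2 + g 1; ring)
    | (change g 0 + g 1 + g 2 = g 1 + g 0 + g 2; ring)
    | (change g 0 + g 1 + g 2 = g 1 + g 2 + g 0; ring)
    | (change g 0 + g 1 + g 2 = g 2 + g 0 + g 1; ring)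
    | (change g 0 + g 1 + g 2 = g 2 + g 1 + g 0; ring)

private theorem perm_mul (g : Fin 3 → ℝ) {i j l : Fin 3} (hij : i ≠ j) (hil : i ≠ l)
    (hjl : j ≠ l) : g 0 * g 1 * g 2 = g i * g j * g l := by
  fin_cases i <;> fin_cases j <;> fin_cases l
  all_goals first
    | exact absurd rfl hij
    | exact absurd rfl hil
    | exact absurd rfl hjl
    | (change g 0 * g 1 * g 2 = g 0 * g 1 * g 2; ring)
    | (change g 0 * g 1 * g 2 = g 0 * g 2 * g 1; ring)
    | (change g 0 * g 1 * g 2 = g 1 * g 0 * g 2; ring)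
    | (change g 0 * g 1 * g 2 = g 1 * g 2 * g 0; ring)
    | (change g 0 * g 1 * g 2 = g 2 * g 0 * g 1; ring)
    | (change g 0 * g 1 * g 2 = g 2 * g 1 * g 0; ring)

private theorem ph_eq (q : ℝ) {i j l : Fin 3} (hij : i ≠ j) (hil : i ≠ l) (hjl : j ≠ l)
    (x : Sph 2) : ph q i x = x.1 i ^ 2 * (x.1 i ^ 2 - q) * (x.1 i ^ 2 - 9 / 10) +
      8000 * (x.1 i ^ 2 * x.1 j ^ 2 * x.1 l ^ 2) * (x.1 i ^ 2 - 13 / 40) := by
  unfold ph pp
  rw [perm_mul (fun k => x.1 k ^ 2) hij hil hjl]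

private theorem sum_eq {i j l : Fin 3} (hij : i ≠ j) (hil : i ≠ l) (hjl : j ≠ l)
    (x : Sph 2) : x.1 i ^ 2 + x.1 j ^ 2 + x.1 l ^ 2 = 1 := by
  rw [← perm_add (fun k => x.1 k ^ 2) hij hil hjl]
  have := sum_sq_eq_one x
  rw [Fin.sum_univ_three] at this
  exact this

private theorem inner_eq' {i j l : Fin 3} (hij : i ≠ j) (hil : i ≠ l) (hjl : j ≠ l)
    (x y : Sph 2) : |x.1 0| * |y.1 0| + |x.1 1| * |y.1 1| + |x.1 2| * |y.1 2| =
      |x.1 i| * |y.1 i| + |x.1 j| * |y.1 j| + |x.1 l| * |y.1 l| :=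
  perm_add (fun k => |x.1 k| * |y.1 k|) hij hil hjl

private theorem others (i : Fin 3) : ∃ j l : Fin 3, i ≠ j ∧ i ≠ l ∧ j ≠ l := by
  fin_cases i
  · exact ⟨1, 2, by decide, by decide, by decide⟩
  · exact ⟨0, 2, by decide, by decide, by decide⟩
  · exact ⟨0, 1, by decide, by decide, by decide⟩

/-- For `1 / 2 ≤ cos r ≤ 2 / 3` a measure invariant under all sign changes does not annihilate all
three polynomials. -/
theorem key6 {r : ℝ} (hr0 : 0 ≤ r) (h1 : 1 / 2 ≤ Real.cos r) (h2 : Real.cos r ≤ 2 / 3)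
    (μ : AVR (geo 2) r) (hinv : ∀ j x, μ.w (flip j x) = μ.w x) :
    ∃ k : Fin 3, ri (ph ((1 - Real.cos r) / 2) k) μ.w ≠ 0 := by
  set q : ℝ := (1 - Real.cos r) / 2 with hq
  have hcq : Real.cos r = 1 - 2 * q := by rw [hq]; ring
  have hq6 : 1 / 6 ≤ q := by rw [hq]; linarith
  have hq4 : q ≤ 1 / 4 := by rw [hq]; linarith
  have hcoord : ∀ x ∈ μ.w.support, ∀ j : Fin 3, x.1 j ≠ 0 → q ≤ x.1 j ^ 2 :=
    fun x hx j h => coord_ge hr0 μ hinv hx j h
  have hzero : ∀ (x : Sph 2) (j : Fin 3), x.1 j = 0 → x.1 j ^ 2 = 0 := by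
    intro x j h
    rw [h]; ring
  by_cases hM : ∃ m ∈ μ.w.support, ∃ i j l : Fin 3, i ≠ j ∧ i ≠ l ∧ j ≠ l ∧ m.1 l = 0 ∧
      m.1 i ≠ 0 ∧ m.1 j ≠ 0
  · -- a point with exactly one zero coordinate
    obtain ⟨m, hm, i, j, l, hij, hil, hjl, hml, hmj, hmi2⟩ : ∃ m ∈ μ.w.support, ∃ i j l : Fin 3,
        i ≠ j ∧ i ≠ l ∧ j ≠ l ∧ m.1 l = 0 ∧ m.1 j ≠ 0 ∧ 1 / 2 ≤ m.1 i ^ 2 := by
      obtain ⟨m, hm, i, j, l, hij, hil, hjl, hml, hmi, hmj⟩ := hM
      have h3 := sum_eq hij hil hjl m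
      rw [hzero m l hml] at h3
      rcases le_or_gt (1 / 2) (m.1 i ^ 2) with h4 | h4
      · exact ⟨m, hm, i, j, l, hij, hil, hjl, hml, hmj, h4⟩
      · exact ⟨m, hm, j, i, l, hij.symm, hjl, hil, hml, hmi, by linarith⟩
    have hmjq := hcoord m hm j hmj
    have hms := sum_eq hij hil hjl m
    rw [hzero m l hml, add_zero] at hms
    refine ⟨i, ne_of_lt (ri_neg_of μ ?_ hm ?_)⟩
    · intro y hy
      rw [ph_eq q hij hil hjl]
      have hys := sum_eq hij hil hjl y
      by_cases hyi : y.1 i = 0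
      · rw [hzero y i hyi]; apply le_of_eq; ring
      have hyiq := hcoord y hy i hyi
      by_cases hyj : y.1 j = 0
      · by_cases hyl : y.1 l = 0
        · -- axis point
          exfalso
          have h3 : m.1 j ^ 2 ≠ y.1 j ^ 2 := by
            rw [hzero y j hyj]
            exact pow_ne_zero 2 hmj
          have h4 := abs_inner_le hr0 μ hinv hm hy h3
          rw [inner_eq' hij hil hjl, hyj, hyl, abs_zero, mul_zero, mul_zero, add_zero,
            add_zero] at h4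
          rw [hzero y j hyj, hzero y l hyl, add_zero, add_zero] at hys
          have h5 : |y.1 i| = 1 := by
            rw [← sq_abs] at hys
            exact (pow_eq_one_iff_of_nonneg (abs_nonneg _) two_ne_zero).1 hys
          rw [h5, mul_one] at h4
          have h6 : |m.1 i| ^ 2 ≤ (2 / 3) ^ 2 :=
            pow_le_pow_left₀ (abs_nonneg _) (h4.trans h2) 2
          rw [sq_abs] at h6
          linarith
        · have h3 := hcoord y hy l hyl
          rw [hzero y j hyj] at hys ⊢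
          have h4 : 0 ≤ y.1 i ^ 2 * (y.1 i ^ 2 - q) * (9 / 10 - y.1 i ^ 2) :=
            mul_nonneg (mul_nonneg (sq_nonneg _) (by linarith)) (by linarith)
          linarith
      · have h3 := hcoord y hy j hyj
        by_cases hyl : y.1 l = 0
        · rw [hzero y l hyl] at hys ⊢
          have h4 : 0 ≤ y.1 i ^ 2 * (y.1 i ^ 2 - q) * (9 / 10 - y.1 i ^ 2) :=
            mul_nonneg (mul_nonneg (sq_nonneg _) (by linarith)) (by linarith)
          linarith
        · have h5 := hcoord y hy l hyl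
          have h4 : 0 ≤ y.1 i ^ 2 * (y.1 i ^ 2 - q) * (9 / 10 - y.1 i ^ 2) :=
            mul_nonneg (mul_nonneg (sq_nonneg _) (by linarith)) (by linarith)
          have h6 : y.1 i ^ 2 ≤ 13 / 40 := by
            by_contra h7
            push Not at h7
            have h8 : m.1 l ^ 2 ≠ y.1 l ^ 2 := by
              rw [hzero m l hml]
              exact (pow_ne_zero 2 hyl).symm
            have h9 := abs_inner_le hr0 μ hinv hm hy h8
            rw [inner_eq' hij hil hjl, hml, abs_zero, zero_mul, add_zero, hcq] at h9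
            have h10 := est_S (q := q) (x := |m.1 i|) (y := |m.1 j|) (a := |y.1 i|)
              (b := |y.1 j|) hq6 (abs_nonneg _) (abs_nonneg _)
              (by rw [sq_abs, sq_abs]; exact hms) (by rw [sq_abs]; exact hmi2)
              (by rw [sq_abs]; exact hmjq) (abs_nonneg _) (by rw [sq_abs]; exact h7)
              (abs_nonneg _) (by rw [sq_abs]; exact h3)
            linarith
          have h7 : 0 ≤ y.1 i ^ 2 * y.1 j ^ 2 * y.1 l ^ 2 * (13 / 40 - y.1 i ^ 2) :=
            mul_nonneg (by positivity) (by linarith)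
          linarith
    · rw [ph_eq q hij hil hjl, hzero m l hml]
      have h4 : 0 < m.1 i ^ 2 * (m.1 i ^ 2 - q) * (9 / 10 - m.1 i ^ 2) :=
        mul_pos (mul_pos (by linarith) (by linarith)) (by linarith)
      linarith
  · -- no such point
    have hax : ∀ y ∈ μ.w.support, (∀ i, y.1 i ≠ 0) ∨ ∃ i, y.1 i ^ 2 = 1 ∧
        ∀ j, j ≠ i → y.1 j = 0 := by
      intro y hy
      by_cases h3 : ∀ i, y.1 i ≠ 0
      · exact Or.inl h3
      · right
        push Not at h3
        obtain ⟨l, hl⟩ := h3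
        obtain ⟨i, j, hli, hlj, hij⟩ := others l
        have hys := sum_eq hij hli.symm hlj.symm y
        rw [hzero y l hl, add_zero] at hys
        have h4 : y.1 i = 0 ∨ y.1 j = 0 := by
          by_contra h5
          push Not at h5
          exact hM ⟨y, hy, i, j, l, hij, hli.symm, hlj.symm, hl, h5.1, h5.2⟩
        have hcov : ∀ k : Fin 3, k = i ∨ k = j ∨ k = l := by
          intro k
          have k1 := k.isLt
          have i1 := i.isLt
          have j1 := j.isLt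
          have l1 := l.isLt
          rw [ne_eq, Fin.ext_iff] at hli hlj hij
          rw [Fin.ext_iff, Fin.ext_iff, Fin.ext_iff]
          omega
        rcases h4 with h4 | h4
        · refine ⟨j, ?_, ?_⟩
          · rw [hzero y i h4, zero_add] at hys; exact hys
          · intro k hk
            rcases hcov k with rfl | rfl | rfl
            · exact h4
            · exact absurd rfl hk
            · exact hl
        · refine ⟨i, ?_, ?_⟩
          · rw [hzero y j h4, add_zero] at hys; exact hys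
          · intro k hk
            rcases hcov k with rfl | rfl | rfl
            · exact absurd rfl hk
            · exact h4
            · exact hl
    have haxnn : ∀ (y : Sph 2) (k i : Fin 3), y.1 i ^ 2 = 1 → (∀ j, j ≠ i → y.1 j = 0) →
        0 ≤ ph q k y := by
      intro y k i hyi hyj
      by_cases hki : k = i
      · subst hki
        obtain ⟨j, l, hij, hil, hjl⟩ := others k
        rw [ph_eq q hij hil hjl, hyi, hzero y j (hyj j hij.symm)]
        linarith
      · obtain ⟨j, l, hij, hil, hjl⟩ := others k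
        rw [ph_eq q hij hil hjl, hzero y k (hyj k hki)]
        apply le_of_eq; ring
    by_cases hT : ∃ t ∈ μ.w.support, ∀ i, t.1 i ≠ 0
    · obtain ⟨t, ht, ht0⟩ := hT
      have htq : ∀ i, q ≤ t.1 i ^ 2 := fun i => hcoord t ht i (ht0 i)
      obtain ⟨i, hi⟩ : ∃ i, 1 / 3 ≤ t.1 i ^ 2 := by
        by_contra h3
        push Not at h3
        have h4 := sum_sq_eq_one t
        rw [Fin.sum_univ_three] at h4
        linarith [h3 0, h3 1, h3 2]
      obtain ⟨j, l, hij, hil, hjl⟩ := others i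
      have hts := sum_eq hij hil hjl t
      have htpos : 0 < ph q i t := by
        rw [ph_eq q hij hil hjl]
        have hj := htq j
        have hl := htq l
        have e1 : 1 / 36 ≤ t.1 j ^ 2 * t.1 l ^ 2 := by
          have := mul_le_mul (hq6.trans hj) (hq6.trans hl) (by norm_num) (by positivity)
          linarith
        have e2 : 1 / 108 ≤ t.1 i ^ 2 * (t.1 j ^ 2 * t.1 l ^ 2) := by
          have := mul_le_mul hi e1 (by norm_num) (by positivity)
          linarith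
        have e3 : 1 / 108 * (1 / 120) ≤ t.1 i ^ 2 * (t.1 j ^ 2 * t.1 l ^ 2) *
            (t.1 i ^ 2 - 13 / 40) := by
          exact mul_le_mul e2 (by linarith) (by norm_num) (by positivity)
        have e4 : t.1 i ^ 2 * (t.1 i ^ 2 - q) * (9 / 10 - t.1 i ^ 2) ≤ 2 / 3 * (1 / 2) *
            (17 / 30) := by
          apply mul_le_mul
          · exact mul_le_mul (by linarith) (by linarith) (by linarith) (by norm_num)
          · linarith
          · linarith
          · norm_num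
        nlinarith
      refine ⟨i, ne_of_gt (ri_pos_of μ ?_ ht htpos)⟩
      intro y hy
      rcases hax y hy with h3 | ⟨k, h3, h4⟩
      · have h5 : ∀ k, y.1 k ^ 2 = t.1 k ^ 2 := by
          intro k
          by_contra h6
          have h7 := abs_inner_le hr0 μ hinv hy ht h6
          have h8 := est_T (q := q) (x := fun k => |y.1 k|) (y := fun k => |t.1 k|) hq6 hq4
            (fun k => abs_nonneg _) (fun k => abs_nonneg _) (sum3 y) (sum3 t)
            (fun k => by rw [sq_abs]; exact hcoord y hy k (h3 k))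
            (fun k => by rw [sq_abs]; exact htq k)
          rw [hcq] at h7
          exact absurd h7 (not_le.2 h8)
        have h9 : ph q i y = ph q i t := by
          unfold ph
          rw [h5, h5, h5, h5]
        rw [h9]
        exact htpos.le
      · exact haxnn y i k h3 h4
    · obtain ⟨y, hy⟩ : μ.w.support.Nonempty := by
        by_contra h3
        rw [Finset.not_nonempty_iff_eq_empty] at h3
        have h4 := μ.total
        rw [Finsupp.sum, h3, Finset.sum_empty] at h4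
        exact zero_ne_one h4
      have hax' : ∀ y ∈ μ.w.support, ∃ i, y.1 i ^ 2 = 1 ∧ ∀ j, j ≠ i → y.1 j = 0 := by
        intro y hy
        rcases hax y hy with h3 | h3
        · exact absurd ⟨y, hy, h3⟩ hT
        · exact h3
      obtain ⟨i, hi, hj⟩ := hax' y hy
      refine ⟨i, ne_of_gt (ri_pos_of μ ?_ hy ?_)⟩
      · intro z hz
        obtain ⟨k, hk, hk2⟩ := hax' z hz
        exact haxnn z i k hk hk2
      · obtain ⟨j, l, hij, hil, hjl⟩ := others i
        rw [ph_eq q hij hil hjl, hi, hzero y j (hj j hij.symm)]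
        linarith

end Pool.Agent.H53.SM
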